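import Pool.Agent.Lib.MP_325d88_nt.FinalAll
import Pool.Agent.Lib.MP_325d88_nt.RelE

set_option autoImplicit false

namespace Pool.Agent.Results.MP_325d88_nt.LinearOrder

open Finset

/-- `A(m,k)`: the product of the exact powers `p ^ a ∥ m` over the primes `p < k`. -/
def smoothPart (m k : ℕ) : ℕ := ∏ p ∈ (Finset.range k).filter Nat.Prime, p ^ padicValNat p m

/-- `μ` is the smallest of `A(n+1,k), …, A(n+k,k)`. -/
def IsMinPart (k n μ : ℕ) : Prop :=
  IsLeast {a : ℕ | ∃ i : ℕ, 1 ≤ i ∧ i ≤ k ∧ a = smoothPart (n + i) k} μ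

/-- `M = M(k)`: the maximum over `n ≥ 0` of the smallest of `A(n+1,k), …, A(n+k,k)`. -/
def IsM (k M : ℕ) : Prop := IsGreatest {μ : ℕ | ∃ n : ℕ, IsMinPart k n μ} M

theorem smoothPart_pos (m k : ℕ) : 1 ≤ smoothPart m k := by
  unfold smoothPart
  have h : 0 < ∏ p ∈ (Finset.range k).filter Nat.Prime, p ^ padicValNat p m := by
    apply Finset.prod_pos
    intro p hp
    exact Nat.pow_pos (Finset.mem_filter.1 hp).2.pos
  exact h

theorem exists_minPart (k n : ℕ) (hk : 1 ≤ k) : ∃ μ, IsMinPart k n μ := by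
  classical
  have hne : {a : ℕ | ∃ i : ℕ, 1 ≤ i ∧ i ≤ k ∧ a = smoothPart (n + i) k}.Nonempty :=
    ⟨_, 1, le_rfl, hk, rfl⟩
  exact ⟨sInf _, Nat.sInf_mem hne, fun a ha => Nat.sInf_le ha⟩

/-- some `n+i` has a small smooth part: crude bound, to see that `M(k)` exists -/
theorem exists_small (k n : ℕ) (hk : 1 ≤ k) : ∃ i, 1 ≤ i ∧ i ≤ k ∧ smoothPart (n + i) k ≤ k ^ k := by
  classical
  have hmax : ∀ p : ℕ, ∃ i ∈ Finset.Icc 1 k, ∀ j ∈ Finset.Icc 1 k,
      padicValNat p (n + j) ≤ padicValNat p (n + i) := fun p =>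
    Finset.exists_max_image _ _ ⟨1, Finset.mem_Icc.2 ⟨le_rfl, hk⟩⟩
  choose f hf hfm using hmax
  obtain ⟨i, hi, hif⟩ : ∃ i ∈ Finset.Icc 1 k, i ∉ ((Finset.range k).filter Nat.Prime).image f := by
    by_contra hcon
    push Not at hcon
    have h1 : Finset.Icc 1 k ⊆ ((Finset.range k).filter Nat.Prime).image f := fun i hi => hcon i hi
    have h2 := Finset.card_le_card h1
    have h3 : (((Finset.range k).filter Nat.Prime).image f).card ≤
        ((Finset.range k).filter Nat.Prime).card := Finset.card_image_le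
    have h4 : ((Finset.range k).filter Nat.Prime).card < k := by
      calc ((Finset.range k).filter Nat.Prime).card < (Finset.range k).card := by
            apply Finset.card_lt_card
            rw [Finset.ssubset_iff_of_subset (Finset.filter_subset _ _)]
            exact ⟨0, Finset.mem_range.2 (by omega), fun h => Nat.not_prime_zero
              (Finset.mem_filter.1 h).2⟩
        _ = k := Finset.card_range k
    rw [Nat.card_Icc] at h2
    omega
  obtain ⟨hi1, hi2⟩ := Finset.mem_Icc.1 hi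
  refine ⟨i, hi1, hi2, ?_⟩
  have hb : ∀ p ∈ (Finset.range k).filter Nat.Prime, p ^ padicValNat p (n + i) ≤ k := by
    intro p hp
    have hpp := (Finset.mem_filter.1 hp).2
    have hne : i ≠ f p := fun h => hif (Finset.mem_image.2 ⟨p, hp, h.symm⟩)
    have hfp := Finset.mem_Icc.1 (hf p)
    have h1 : p ^ padicValNat p (n + i) ∣ n + i := pow_padicValNat_dvd
    have h2 : p ^ padicValNat p (n + i) ∣ n + f p :=
      (pow_dvd_pow p (hfm p i hi)).trans pow_padicValNat_dvd
    rcases lt_or_gt_of_ne hne with h | h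
    · have h3 : p ^ padicValNat p (n + i) ∣ f p - i := by
        have := Nat.dvd_sub h2 h1
        have e : n + f p - (n + i) = f p - i := by omega
        rwa [e] at this
      exact (Nat.le_of_dvd (by omega) h3).trans (by omega)
    · have h3 : p ^ padicValNat p (n + i) ∣ i - f p := by
        have := Nat.dvd_sub h1 h2
        have e : n + i - (n + f p) = i - f p := by omega
        rwa [e] at this
      exact (Nat.le_of_dvd (by omega) h3).trans (by omega)
  calc smoothPart (n + i) k ≤ ∏ _p ∈ (Finset.range k).filter Nat.Prime, k :=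
        Finset.prod_le_prod' hb
    _ = k ^ ((Finset.range k).filter Nat.Prime).card := by rw [Finset.prod_const]
    _ ≤ k ^ k := by
        apply Nat.pow_le_pow_right hk
        exact (Finset.card_filter_le _ _).trans (by rw [Finset.card_range])

theorem exists_M (k : ℕ) (hk : 1 ≤ k) : ∃ M, IsM k M := by
  classical
  have hne : {μ : ℕ | ∃ n : ℕ, IsMinPart k n μ}.Nonempty := by
    obtain ⟨μ, hμ⟩ := exists_minPart k 0 hk
    exact ⟨μ, 0, hμ⟩
  have hbd : BddAbove {μ : ℕ | ∃ n : ℕ, IsMinPart k n μ} := by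
    refine ⟨k ^ k, ?_⟩
    rintro μ ⟨n, hn⟩
    obtain ⟨i, hi1, hi2, hi⟩ := exists_small k n hk
    exact (hn.2 ⟨i, hi1, hi2, rfl⟩).trans hi
  exact ⟨sSup _, Nat.sSup_mem hne hbd, fun μ hμ => le_csSup hbd hμ⟩

/-- For every `k ≥ 2` the maximum `M(k)` exists, and `M(k) ≥ c k` with a positive constant `c`. -/
theorem result : ∃ c : ℝ, 0 < c ∧ ∀ k : ℕ, 2 ≤ k → ∃ M : ℕ, IsM k M ∧ c * k ≤ M := by
  classical
  obtain ⟨ε, hε, K, hK⟩ := Pool.Agent.Lib.MP_325d88_nt.final_all
    Pool.Agent.Lib.MP_325d88_nt.relCount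
  refine ⟨min ε (1 / ((K : ℝ) + 1)), lt_min hε (by positivity), fun k hk => ?_⟩
  obtain ⟨M, hM⟩ := exists_M k (by omega)
  refine ⟨M, hM, ?_⟩
  have hk0 : (0 : ℝ) < k := by
    have : 0 < k := by omega
    exact_mod_cast this
  rcases le_or_gt K k with h | h
  · obtain ⟨n, hn⟩ := hK k h
    obtain ⟨μ, hμ⟩ := exists_minPart k n (by omega)
    have h1 : μ ≤ M := hM.2 ⟨n, hμ⟩
    obtain ⟨i, hi1, hi2, hi⟩ := hμ.1
    have h2 := hn i (Finset.mem_Icc.2 ⟨hi1, hi2⟩)
    have h3 : (∏ p ∈ (Finset.range k).filter (fun p => Nat.Prime p),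
        p ^ ((n + i).factorization p)) = smoothPart (n + i) k := by
      unfold smoothPart
      refine Finset.prod_congr rfl fun p hp => ?_
      rw [Nat.factorization_def _ (Finset.mem_filter.1 hp).2]
    rw [h3, ← hi] at h2
    have h4 : (μ : ℝ) ≤ M := by exact_mod_cast h1
    calc min ε (1 / ((K : ℝ) + 1)) * k ≤ ε * k := by
          gcongr
          exact min_le_left _ _
      _ ≤ M := by linarith
  · have h1 : 1 ≤ M := by
      obtain ⟨n, hn⟩ := hM.1
      obtain ⟨i, -, -, hi⟩ := hn.1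
      rw [hi]
      exact smoothPart_pos _ _
    have h2 : (1 : ℝ) ≤ M := by exact_mod_cast h1
    have h3 : (k : ℝ) ≤ K := by exact_mod_cast h.le
    calc min ε (1 / ((K : ℝ) + 1)) * k ≤ 1 / ((K : ℝ) + 1) * k := by
          gcongr
          exact min_le_right _ _
      _ ≤ 1 := by
          rw [one_div, inv_mul_le_iff₀ (by positivity)]
          linarith
      _ ≤ M := h2

end Pool.Agent.Results.MP_325d88_nt.LinearOrder
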